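import Pool.Agent.H960R3.DL3

/-!
# An almost discretely Lindelöf T₁ space that is not weakly Lindelöf (MP_a09c40_gt, Q1)

There is (in ZFC) a `T₁` space in which every discrete subset is contained in a Lindelöf subspace,
with an open cover no countable subfamily of which has a dense union.
-/

set_option autoImplicit false

namespace Pool.Agent.Results.MP_a09c40_gt.AlmostDiscretely

/-- `X` is almost discretely Lindelöf: every subset which is discrete in its subspace topology is
contained in a Lindelöf subset. -/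
def AlmostDiscretelyLindelof (X : Type) [TopologicalSpace X] : Prop :=
  ∀ D : Set X, DiscreteTopology D → ∃ L : Set X, D ⊆ L ∧ IsLindelof L

/-- `X` is weakly Lindelöf: every open cover has a countable subfamily with dense union. -/
def WeaklyLindelof (X : Type) [TopologicalSpace X] : Prop :=
  ∀ 𝒰 : Set (Set X), (∀ U ∈ 𝒰, IsOpen U) → ⋃₀ 𝒰 = Set.univ →
    ∃ 𝒱 ⊆ 𝒰, 𝒱.Countable ∧ Dense (⋃₀ 𝒱)

/-- There is a `T₁` space which is almost discretely Lindelöf but not weakly Lindelöf. -/
theorem result :
    ∃ (X : Type) (_ : TopologicalSpace X), T1Space X ∧ AlmostDiscretelyLindelof X ∧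
      ¬ WeaklyLindelof X := by
  obtain ⟨X, τ, h1, h2, 𝒰, h3, h4, h5⟩ := Pool.Agent.H960R3.DL.exists_space
  refine ⟨X, τ, h1, fun D hD => ⟨closure D, subset_closure, ?_⟩, fun hw => ?_⟩
  · exact isLindelof_iff_LindelofSpace.2 (h2 D hD)
  · obtain ⟨𝒱, hsub, hc, hd⟩ := hw 𝒰 h3 h4
    exact h5 𝒱 hsub hc hd

end Pool.Agent.Results.MP_a09c40_gt.AlmostDiscretely
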